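import Pool.Agent.H89B.Exc

set_option autoImplicit false

/-!
# Few integers `N` with a poor interval between `N ^ 2` and `(N + 1) ^ 2`

The file `H89B/Exc.lean` of helper89 with the pairs `N`, `N + 1` in place of consecutive primes (input: the starting
theorem `Pool.Agent.Q278.KT.mainp_half`).
-/

namespace Pool.Agent.Helper85.LQ

open Finset Filter Pool.Agent.Q240.KS
open Pool.Agent.H89B (primesIn Rich primesIn_fin primesIn_add primesIn_eq split)

/-- `q` is the next integer -/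
def Cs (p q : ℕ) : Prop := 1 ≤ p ∧ q = p + 1

/-- the number of bad primes in a short window -/
theorem window : ∃ c η θ T₀ : ℝ, 0 < c ∧ 0 < η ∧ η ≤ 1 / 10 ∧ 0 < θ ∧ θ < 0.306 ∧ 1 ≤ T₀ ∧ ∀ T : ℝ, T₀ ≤ T → ∀ S : Finset ℕ,
    (∀ p ∈ S, T ≤ Real.log p ∧ Real.log p ≤ T + 1 / 10 ∧ ∃ q, Cs p q ∧ ¬ Rich c η p q) →
    (S.card : ℝ) ≤ 2 * Real.exp (θ * (2 * T + 1.2)) := by
  classical
  obtain ⟨c, η₀, Y₀, hc, hη₀, hM⟩ := Pool.Agent.Q278.KT.mainp_half
  set η : ℝ := min η₀ (1 / 10) with hη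
  have hη0 : 0 < η := lt_min hη₀ (by norm_num)
  have hη1 : η ≤ η₀ := min_le_left _ _
  have hη2 : η ≤ 1 / 10 := min_le_right _ _
  refine ⟨c / 6, η, 0.306 - η, max (max Y₀ (1 / η)) 3, by positivity, hη0, hη2, by linarith, by linarith,
    le_trans (by norm_num) (le_max_right _ _), ?_⟩
  intro T hT S hS
  have hTY : Y₀ ≤ T := le_trans (le_trans (le_max_left _ _) (le_max_left _ _)) hT
  have hTη : 1 / η ≤ T := le_trans (le_trans (le_max_right _ _) (le_max_left _ _)) hT
  have hT3 : 3 ≤ T := le_trans (le_max_right _ _) hT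
  have hηT : 1 ≤ η * T := by rw [div_le_iff₀ hη0] at hTη; linarith
  set h : ℝ := Real.exp ((1 / 2 - η) * (2 * T + 2)) with hh
  have hh0 : 0 < h := Real.exp_pos _
  have hl2 := Real.log_two_lt_d9
  -- choose the poor interval
  have hex : ∀ p ∈ S, ∃ (q : ℕ) (z : ℝ), Cs p q ∧ (p : ℝ) ^ 2 ≤ z ∧ z + h ≤ (q : ℝ) ^ 2 ∧
      (pic z h : ℝ) < c * h / (2 * T + 1.2) := by
    intro p hp
    obtain ⟨h1, h2, q, hq, hbad⟩ := hS p hp
    have hppos : (0 : ℝ) < p := by exact_mod_cast hq.1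
    unfold Rich at hbad
    push Not at hbad
    obtain ⟨y, H, hH, hy, hyH, hfew⟩ := hbad
    have hhH : h ≤ H := by
      refine le_trans ?_ hH
      rw [Real.rpow_def_of_pos hppos, hh]
      apply Real.exp_le_exp.2
      have : (1 - η) * T ≤ Real.log p * (1 - η) := by nlinarith
      nlinarith
    have hy0 : 0 ≤ y := le_trans (by positivity) hy
    have hH0 : 0 < H := lt_of_lt_of_le hh0 hhH
    obtain ⟨z, hz1, hz2, hz3⟩ := split (y := y) (H := H) (h := h) (c' := c / (2 * T + 1.2)) hy0 hh0 hhH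
      (by positivity) (by
        refine lt_of_lt_of_le hfew ?_
        have e1 : c / 6 * H / Real.log p ≤ c / 6 * H / T := by
          apply div_le_div_of_nonneg_left (by positivity) (by linarith) h1
        refine e1.trans ?_
        have e2 : c / 6 * H / T = c * H / (6 * T) := by field_simp
        have e3 : c / (2 * T + 1.2) * H / 2 = c * H / (2 * (2 * T + 1.2)) := by
          have : (2 * T + 1.2 : ℝ) ≠ 0 := by positivity
          field_simp
        rw [e2, e3]
        apply div_le_div_of_nonneg_left (by positivity) (by linarith) (by linarith))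
    refine ⟨q, z, hq, hy.trans hz1, hz2.trans hyH, ?_⟩
    rw [mul_comm, ← mul_div_assoc, mul_comm h c] at hz3
    exact hz3
  choose! q z hqz using hex
  have hcons : ∀ p ∈ S, Cs p (q p) := fun p hp => (hqz p hp).1
  have hz1 : ∀ p ∈ S, (p : ℝ) ^ 2 ≤ z p := fun p hp => (hqz p hp).2.1
  have hz2 : ∀ p ∈ S, z p + h ≤ (q p : ℝ) ^ 2 := fun p hp => (hqz p hp).2.2.1
  have hz3 : ∀ p ∈ S, (pic (z p) h : ℝ) < c * h / (2 * T + 1.2) := fun p hp => (hqz p hp).2.2.2
  -- separation
  have hsep : ∀ p ∈ S, ∀ p' ∈ S, p < p' → z p + h ≤ z p' := by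
    intro p hp p' hp' hlt
    have h1 : q p ≤ p' := by
      rw [(hcons p hp).2]
      exact hlt
    have h2 : ((q p : ℝ)) ^ 2 ≤ (p' : ℝ) ^ 2 := by
      have : (q p : ℝ) ≤ p' := by exact_mod_cast h1
      gcongr
    exact (hz2 p hp).trans (h2.trans (hz1 p' hp'))
  have hsep' : ∀ p ∈ S, ∀ p' ∈ S, p ≠ p' → h ≤ |z p - z p'| := by
    intro p hp p' hp' hne
    rcases lt_or_gt_of_ne hne with hlt | hlt
    · have := hsep p hp p' hp' hlt
      rw [abs_sub_comm]
      exact le_trans (by linarith) (le_abs_self _)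
    · have := hsep p' hp' p hp hlt
      exact le_trans (by linarith) (le_abs_self _)
  have hinj : Set.InjOn z S := by
    intro p hp p' hp' he
    by_contra hne
    have := hsep' p hp p' hp' hne
    rw [he, sub_self, abs_zero] at this
    linarith
  -- the position
  have hpos : ∀ p ∈ S, 0 < z p ∧ 2 * T ≤ Real.log (z p) ∧ Real.log (z p) ≤ 2 * T + 1.6 := by
    intro p hp
    obtain ⟨h1, h2, -⟩ := hS p hp
    have hppos : (0 : ℝ) < p := by exact_mod_cast (hcons p hp).1
    have hzpos : 0 < z p := lt_of_lt_of_le (by positivity) (hz1 p hp)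
    refine ⟨hzpos, ?_, ?_⟩
    · have := Real.log_le_log (by positivity) (hz1 p hp)
      rw [Real.log_pow] at this
      push_cast at this
      linarith
    · have h3 : q p ≤ 2 * p := by
        have h31 := (hcons p hp).1
        have h32 := (hcons p hp).2
        omega
      have h4 : (q p : ℝ) ≤ 2 * p := by exact_mod_cast h3
      have h5 : z p ≤ (2 * p : ℝ) ^ 2 := by
        have h6 : ((q p : ℝ)) ^ 2 ≤ (2 * p : ℝ) ^ 2 := by gcongr
        have := hz2 p hp
        linarith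
      have h6 := Real.log_le_log hzpos h5
      rw [Real.log_pow, Real.log_mul (by norm_num) hppos.ne'] at h6
      push_cast at h6
      linarith
  -- the count
  set U₁ : Finset ℝ := (S.image z).filter (fun y => Real.log y ≤ 2 * T + 0.8) with hU₁
  set U₂ : Finset ℝ := (S.image z).filter (fun y => ¬ Real.log y ≤ 2 * T + 0.8) with hU₂
  have hcard : S.card = U₁.card + U₂.card := by
    rw [hU₁, hU₂, Finset.card_filter_add_card_filter_not, Finset.card_image_of_injOn hinj]
  have hsepU : ∀ y ∈ S.image z, ∀ y' ∈ S.image z, y ≠ y' → h ≤ |y - y'| := by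
    intro y hy y' hy' hne
    obtain ⟨p, hp, rfl⟩ := Finset.mem_image.1 hy
    obtain ⟨p', hp', rfl⟩ := Finset.mem_image.1 hy'
    exact hsep' p hp p' hp' (fun h => hne (by rw [h]))
  have hexp : ∀ Y : ℝ, 2 * T + 0.4 ≤ Y → Y ≤ 2 * T + 1.2 → ∀ U : Finset ℝ, U ⊆ S.image z →
      (∀ y ∈ U, |Real.log y - Y| ≤ 2 / 5) → (U.card : ℝ) ≤ Real.exp ((0.306 - η) * (2 * T + 1.2)) := by
    intro Y hY1 hY2 U hU hUlog
    refine (hM Y (by linarith) h ?_ ?_ U ?_ ?_).trans ?_
    · rw [hh]; apply Real.exp_le_exp.2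
      have : (1 - 1 / 2 - η₀) * Y ≤ (1 / 2 - η) * Y := by nlinarith
      nlinarith
    · rw [hh]; apply Real.exp_le_exp.2
      nlinarith
    · intro y hy
      obtain ⟨p, hp, rfl⟩ := Finset.mem_image.1 (hU hy)
      refine ⟨(hpos p hp).1, hUlog _ hy, lt_of_lt_of_le (hz3 p hp) ?_⟩
      apply div_le_div_of_nonneg_left (by positivity) (by linarith) hY2
    · intro y hy y' hy' hne
      exact hsepU y (hU hy) y' (hU hy') hne
    · apply Real.exp_le_exp.2
      have : (0.306 - η₀) * Y ≤ (0.306 - η) * Y := by nlinarith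
      nlinarith
  have h1 := hexp (2 * T + 0.4) le_rfl (by linarith) U₁ (Finset.filter_subset _ _) (by
    intro y hy
    obtain ⟨hy1, hy2⟩ := Finset.mem_filter.1 hy
    obtain ⟨p, hp, rfl⟩ := Finset.mem_image.1 hy1
    have := (hpos p hp).2.1
    rw [abs_le]; constructor <;> linarith)
  have h2 := hexp (2 * T + 1.2) (by linarith) le_rfl U₂ (Finset.filter_subset _ _) (by
    intro y hy
    obtain ⟨hy1, hy2⟩ := Finset.mem_filter.1 hy
    obtain ⟨p, hp, rfl⟩ := Finset.mem_image.1 hy1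
    have := (hpos p hp).2.2
    rw [abs_le]; constructor <;> linarith)
  rw [hcard]
  push_cast
  linarith

/-- For all but `C X ^ 0.612` integers `N ≤ X` every interval of length at least `N ^ (1 - η)` between `N ^ 2` and
`(N + 1) ^ 2` contains the right order of primes. -/
theorem exceptional : ∃ c η C : ℝ, 0 < c ∧ 0 < η ∧ η ≤ 1 / 10 ∧ 0 < C ∧ ∀ X : ℝ, 1 ≤ X → ∀ S : Finset ℕ,
    (∀ p ∈ S, (p : ℝ) ≤ X ∧ ∃ q, Cs p q ∧ ¬ Rich c η p q) → (S.card : ℝ) ≤ C * X ^ (0.612 : ℝ) := by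
  classical
  obtain ⟨c, η, θ, T₀, hc, hη0, hη1, hθ0, hθ, hT1, hW⟩ := window
  set δ : ℝ := 0.612 - 2 * θ with hδ
  have hδ0 : 0 < δ := by rw [hδ]; linarith
  refine ⟨c, η, (Real.exp T₀ + 1) + 2 * Real.exp (1.2 * θ) * (10 / δ + 1), hc, hη0, hη1, by positivity, ?_⟩
  intro X hX S hS
  have hX0 : 0 < X := by linarith
  have hL0 : 0 ≤ Real.log X := Real.log_nonneg hX
  have hpp : ∀ p ∈ S, (0 : ℝ) < p := fun p hp => by
    obtain ⟨-, q, hq, -⟩ := hS p hp
    exact_mod_cast hq.1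
  set S₀ : Finset ℕ := S.filter (fun p => Real.log p < T₀) with hS₀
  set S₁ : Finset ℕ := S.filter (fun p => ¬ Real.log p < T₀) with hS₁
  have hcard : S.card = S₀.card + S₁.card := by
    rw [hS₀, hS₁, Finset.card_filter_add_card_filter_not]
  -- the small ones
  have h0 : (S₀.card : ℝ) ≤ Real.exp T₀ + 1 := by
    have hsub : S₀ ⊆ Finset.range (⌊Real.exp T₀⌋₊ + 1) := by
      intro p hp
      obtain ⟨hp1, hp2⟩ := Finset.mem_filter.1 hp
      have h1 : (p : ℝ) ≤ Real.exp T₀ := by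
        have := Real.exp_le_exp.2 hp2.le
        rwa [Real.exp_log (hpp p hp1)] at this
      have h2 : p ≤ ⌊Real.exp T₀⌋₊ := Nat.le_floor h1
      exact Finset.mem_range.2 (by omega)
    have h1 := Finset.card_le_card hsub
    rw [Finset.card_range] at h1
    have h2 : (S₀.card : ℝ) ≤ (⌊Real.exp T₀⌋₊ : ℝ) + 1 := by exact_mod_cast h1
    have h3 := Nat.floor_le (Real.exp_pos T₀).le
    linarith
  -- the large ones
  set f : ℕ → ℕ := fun p => ⌊10 * (Real.log p - T₀)⌋₊ with hf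
  set B : ℝ := 2 * (Real.exp (1.2 * θ) * X ^ (2 * θ)) with hB
  have hB0 : 0 ≤ B := by rw [hB]; positivity
  have hfib : ∀ a ∈ S₁.image f, (S₁.filter (fun p => f p = a)).card ≤ ⌊B⌋₊ := by
    intro a ha
    obtain ⟨p, hp, rfl⟩ := Finset.mem_image.1 ha
    have key := hW (T₀ + f p / 10) (by
      have : (0 : ℝ) ≤ (f p : ℝ) / 10 := by positivity
      linarith) (S₁.filter (fun p' => f p' = f p)) (by
      intro p' hp'
      obtain ⟨hp1, hp2⟩ := Finset.mem_filter.1 hp'
      obtain ⟨hp3, hp4⟩ := Finset.mem_filter.1 hp1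
      push Not at hp4
      have h1 : 0 ≤ 10 * (Real.log p' - T₀) := by linarith
      have h2 := Nat.floor_le h1
      have h3 := Nat.lt_floor_add_one (10 * (Real.log p' - T₀))
      rw [← hp2]
      simp only [hf]
      exact ⟨by linarith, by linarith, (hS p' hp3).2⟩)
    apply Nat.le_floor
    refine key.trans ?_
    have h1 : T₀ + (f p : ℝ) / 10 ≤ Real.log X := by
      obtain ⟨hp3, hp4⟩ := Finset.mem_filter.1 hp
      push Not at hp4
      have h1 : 0 ≤ 10 * (Real.log p - T₀) := by linarith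
      have h2 := Nat.floor_le h1
      have h3 : Real.log p ≤ Real.log X := Real.log_le_log (hpp p hp3) (hS p hp3).1
      simp only [hf]
      linarith
    have h2 : Real.exp (θ * (2 * (T₀ + f p / 10) + 1.2)) ≤ Real.exp (1.2 * θ) * X ^ (2 * θ) := by
      rw [Real.rpow_def_of_pos hX0, ← Real.exp_add]
      apply Real.exp_le_exp.2
      nlinarith
    rw [hB]
    linarith
  have him : ((S₁.image f).card : ℝ) ≤ 10 * Real.log X + 1 := by
    have hsub : S₁.image f ⊆ Finset.range (⌊10 * Real.log X⌋₊ + 1) := by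
      intro a ha
      obtain ⟨p, hp, rfl⟩ := Finset.mem_image.1 ha
      obtain ⟨hp3, hp4⟩ := Finset.mem_filter.1 hp
      have h3 : Real.log p ≤ Real.log X := Real.log_le_log (hpp p hp3) (hS p hp3).1
      have h4 : f p ≤ ⌊10 * Real.log X⌋₊ := Nat.floor_le_floor (by linarith)
      exact Finset.mem_range.2 (by omega)
    have h1 := Finset.card_le_card hsub
    rw [Finset.card_range] at h1
    have h2 : ((S₁.image f).card : ℝ) ≤ (⌊10 * Real.log X⌋₊ : ℝ) + 1 := by exact_mod_cast h1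
    have h3 := Nat.floor_le (show 0 ≤ 10 * Real.log X by positivity)
    linarith
  have h1 : (S₁.card : ℝ) ≤ B * (10 * Real.log X + 1) := by
    have h2 := Finset.card_le_mul_card_image (f := f) S₁ ⌊B⌋₊ hfib
    have h3 : (S₁.card : ℝ) ≤ (⌊B⌋₊ : ℝ) * ((S₁.image f).card : ℝ) := by exact_mod_cast h2
    have h4 := Nat.floor_le hB0
    calc (S₁.card : ℝ) ≤ (⌊B⌋₊ : ℝ) * ((S₁.image f).card : ℝ) := h3
      _ ≤ B * (10 * Real.log X + 1) := by gcongr
  have hX1 : (1 : ℝ) ≤ X ^ (0.612 : ℝ) := Real.one_le_rpow hX (by norm_num)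
  have hXδ : (1 : ℝ) ≤ X ^ δ := Real.one_le_rpow hX hδ0.le
  have hlog : 10 * Real.log X + 1 ≤ (10 / δ + 1) * X ^ δ := by
    have h2 := Real.log_le_rpow_div hX0.le hδ0
    have h3 : 10 * (X ^ δ / δ) = 10 / δ * X ^ δ := by ring
    nlinarith
  have h2 : B * (10 * Real.log X + 1) ≤ 2 * Real.exp (1.2 * θ) * (10 / δ + 1) * X ^ (0.612 : ℝ) := by
    have e1 : X ^ (0.612 : ℝ) = X ^ (2 * θ) * X ^ δ := by
      rw [← Real.rpow_add hX0]; congr 1; rw [hδ]; ring
    rw [e1]
    calc B * (10 * Real.log X + 1) ≤ B * ((10 / δ + 1) * X ^ δ) := by gcongr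
      _ = 2 * Real.exp (1.2 * θ) * (10 / δ + 1) * (X ^ (2 * θ) * X ^ δ) := by rw [hB]; ring
  have h3 : Real.exp T₀ + 1 ≤ (Real.exp T₀ + 1) * X ^ (0.612 : ℝ) := by
    have : 0 < Real.exp T₀ + 1 := by positivity
    nlinarith
  rw [hcard]
  push_cast
  linarith

end Pool.Agent.Helper85.LQ
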