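import Pool.Agent.H357R2.SI.PairFinal

set_option autoImplicit false

/-!
# The number of sums of primes from two short intervals
-/

namespace Pool.Agent.Helper85.LQ

open Finset Filter
open Pool.Agent.H357R2.SI (sg pair_sieve)
open scoped Pointwise

/-- the primes of an interval -/
def PI (x H : ℕ) : Finset ℕ := (Ioc x (x + H)).filter Nat.Prime

/-- the prime pairs with the difference `d` -/
def PD (x H d : ℕ) : Finset ℕ := (Ioc x (x + H)).filter (fun n => n.Prime ∧ (n + d).Prime)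

/-- the fourth moment of `σ_{-1}` -/
theorem sum_sg4 : ∃ C : ℝ, 1 ≤ C ∧ ∀ T : ℕ, ∑ h ∈ Icc 1 T, sg h ^ 4 ≤ C * T := by
  have hsum1 : Summable (fun n : ℕ => (n : ℝ) ^ (-(11 / 10) : ℝ)) := Real.summable_nat_rpow.mpr (by norm_num)
  have hsum2 : Summable (fun n : ℕ => (n : ℝ) ^ (-(17 / 10) : ℝ)) := Real.summable_nat_rpow.mpr (by norm_num)
  obtain ⟨C₁, hC₁⟩ : ∃ C₁ : ℝ, C₁ = ∑' n : ℕ, (n : ℝ) ^ (-(11 / 10) : ℝ) := ⟨_, rfl⟩
  obtain ⟨C₂, hC₂⟩ : ∃ C₂ : ℝ, C₂ = ∑' n : ℕ, (n : ℝ) ^ (-(17 / 10) : ℝ) := ⟨_, rfl⟩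
  have hC₁0 : 0 ≤ C₁ := by rw [hC₁]; exact tsum_nonneg (fun n => by positivity)
  have hC₂0 : 0 ≤ C₂ := by rw [hC₂]; exact tsum_nonneg (fun n => by positivity)
  have hp1 : ∀ s : Finset ℕ, ∑ d ∈ s, (d : ℝ) ^ (-(11 / 10) : ℝ) ≤ C₁ := fun s => by
    rw [hC₁]; exact hsum1.sum_le_tsum s (fun n _ => by positivity)
  have hp2 : ∀ s : Finset ℕ, ∑ d ∈ s, (d : ℝ) ^ (-(17 / 10) : ℝ) ≤ C₂ := fun s => by
    rw [hC₂]; exact hsum2.sum_le_tsum s (fun n _ => by positivity)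
  refine ⟨C₁ ^ 3 * C₂ + 1, by nlinarith [pow_nonneg hC₁0 3], fun T => ?_⟩
  have cs : ∀ (h : ℕ) (a b : ℝ), a + b = -(9 / 10) ∨ a + b = -1 → a = -(11 / 20) →
      (∑ d ∈ h.divisors, (d : ℝ) ^ (a + b)) ^ 2 ≤ C₁ * ∑ d ∈ h.divisors, (d : ℝ) ^ (2 * b) := by
    intro h a b _ ha
    have h2 : ∑ d ∈ h.divisors, (d : ℝ) ^ (a + b) = ∑ d ∈ h.divisors, (d : ℝ) ^ a * (d : ℝ) ^ b := by
      apply sum_congr rfl
      intro d hd
      have hd0 : (0 : ℝ) < d := by exact_mod_cast Nat.pos_of_mem_divisors hd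
      rw [← Real.rpow_add hd0]
    rw [h2]
    refine (sum_mul_sq_le_sq_mul_sq _ _ _).trans ?_
    have h3 : ∑ d ∈ h.divisors, ((d : ℝ) ^ a) ^ 2 = ∑ d ∈ h.divisors, (d : ℝ) ^ (-(11 / 10) : ℝ) := by
      apply sum_congr rfl
      intro d _
      rw [← Real.rpow_natCast, ← Real.rpow_mul (Nat.cast_nonneg d), ha]
      norm_num
    have h4 : ∑ d ∈ h.divisors, ((d : ℝ) ^ b) ^ 2 = ∑ d ∈ h.divisors, (d : ℝ) ^ (2 * b) := by
      apply sum_congr rfl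
      intro d _
      rw [← Real.rpow_natCast, ← Real.rpow_mul (Nat.cast_nonneg d), mul_comm b]
      norm_num
    rw [h3, h4]
    exact mul_le_mul_of_nonneg_right (hp1 _) (sum_nonneg (fun _ _ => by positivity))
  have h1 : ∀ h ∈ Icc 1 T, sg h ^ 4 ≤ C₁ ^ 3 * ∑ d ∈ h.divisors, (d : ℝ) ^ (-(7 / 10) : ℝ) := by
    intro h _
    have e1 : sg h = ∑ d ∈ h.divisors, (d : ℝ) ^ (-(11 / 20) + -(9 / 20) : ℝ) := by
      unfold sg
      apply sum_congr rfl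
      intro d hd
      rw [one_div, ← Real.rpow_neg_one]
      norm_num
    have e2 := cs h (-(11 / 20)) (-(9 / 20)) (Or.inr (by norm_num)) rfl
    rw [← e1] at e2
    have e3 : (2 * -(9 / 20) : ℝ) = -(11 / 20) + -(7 / 20) := by norm_num
    rw [e3] at e2
    have e4 := cs h (-(11 / 20)) (-(7 / 20)) (Or.inl (by norm_num)) rfl
    have e5 : (2 * -(7 / 20) : ℝ) = -(7 / 10) := by norm_num
    rw [e5] at e4
    have e6 : 0 ≤ sg h ^ 2 := sq_nonneg _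
    calc sg h ^ 4 = (sg h ^ 2) ^ 2 := by ring
      _ ≤ (C₁ * ∑ d ∈ h.divisors, (d : ℝ) ^ (-(11 / 20) + -(7 / 20) : ℝ)) ^ 2 := pow_le_pow_left₀ e6 e2 2
      _ = C₁ ^ 2 * (∑ d ∈ h.divisors, (d : ℝ) ^ (-(11 / 20) + -(7 / 20) : ℝ)) ^ 2 := by ring
      _ ≤ C₁ ^ 2 * (C₁ * ∑ d ∈ h.divisors, (d : ℝ) ^ (-(7 / 10) : ℝ)) :=
        mul_le_mul_of_nonneg_left e4 (by positivity)
      _ = _ := by ring
  have h5 : ∑ h ∈ Icc 1 T, ∑ d ∈ h.divisors, (d : ℝ) ^ (-(7 / 10) : ℝ) ≤ C₂ * T := by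
    have h6 : ∀ h ∈ Icc 1 T, ∑ d ∈ h.divisors, (d : ℝ) ^ (-(7 / 10) : ℝ) =
        ∑ d ∈ Icc 1 T, if d ∣ h then (d : ℝ) ^ (-(7 / 10) : ℝ) else 0 := by
      intro h hh
      rw [mem_Icc] at hh
      rw [← sum_filter]
      apply sum_congr _ (fun _ _ => rfl)
      ext d
      rw [Nat.mem_divisors, mem_filter, mem_Icc]
      constructor
      · rintro ⟨h7, h8⟩
        exact ⟨⟨Nat.pos_of_dvd_of_pos h7 (by omega), (Nat.le_of_dvd (by omega) h7).trans hh.2⟩, h7⟩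
      · rintro ⟨_, h7⟩
        exact ⟨h7, by omega⟩
    rw [sum_congr rfl h6, sum_comm]
    have h7 : ∀ d ∈ Icc 1 T, (∑ h ∈ Icc 1 T,
        if d ∣ h then (d : ℝ) ^ (-(7 / 10) : ℝ) else 0) ≤ (d : ℝ) ^ (-(17 / 10) : ℝ) * T := by
      intro d hd
      rw [mem_Icc] at hd
      have hd0 : (0 : ℝ) < d := by exact_mod_cast hd.1
      rw [← sum_filter, sum_const, nsmul_eq_mul]
      have h8 : ((Icc 1 T).filter (fun h => d ∣ h)).card = T / d := by
        have := Nat.Ioc_filter_dvd_card_eq_div T d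
        rw [← this]
        congr 1
      rw [h8]
      have h9 : ((T / d : ℕ) : ℝ) ≤ (T : ℝ) / d := Nat.cast_div_le
      calc ((T / d : ℕ) : ℝ) * (d : ℝ) ^ (-(7 / 10) : ℝ) ≤ (T : ℝ) / d * (d : ℝ) ^ (-(7 / 10) : ℝ) := by
            gcongr
        _ = (d : ℝ) ^ (-(17 / 10) : ℝ) * T := by
            rw [show (-(17 / 10) : ℝ) = -1 + -(7 / 10) by norm_num, Real.rpow_add hd0,
              Real.rpow_neg_one]
            field_simp
    refine (sum_le_sum h7).trans ?_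
    rw [← sum_mul]
    exact mul_le_mul_of_nonneg_right (hp2 _) (Nat.cast_nonneg T)
  calc ∑ h ∈ Icc 1 T, sg h ^ 4
      ≤ ∑ h ∈ Icc 1 T, C₁ ^ 3 * ∑ d ∈ h.divisors, (d : ℝ) ^ (-(7 / 10) : ℝ) := sum_le_sum h1
    _ = C₁ ^ 3 * ∑ h ∈ Icc 1 T, ∑ d ∈ h.divisors, (d : ℝ) ^ (-(7 / 10) : ℝ) := by rw [mul_sum]
    _ ≤ C₁ ^ 3 * (C₂ * T) := mul_le_mul_of_nonneg_left h5 (by positivity)
    _ ≤ (C₁ ^ 3 * C₂ + 1) * T := by
        have : (0 : ℝ) ≤ T := Nat.cast_nonneg T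
        nlinarith

/-- the additive energy -/
theorem energy_le (x y H : ℕ) : addEnergy (PI x H) (PI y H) ≤
    (PI x H).card * (PI y H).card + 2 * ∑ d ∈ Icc 1 H, (PD x H d).card * (PD y H d).card := by
  classical
  have hsub : ((((PI x H) ×ˢ (PI x H)) ×ˢ (PI y H) ×ˢ (PI y H)).filter
      (fun z : (ℕ × ℕ) × ℕ × ℕ => z.1.1 + z.2.1 = z.1.2 + z.2.2)) ⊆
      (((PI x H) ×ˢ (PI y H)).image (fun z : ℕ × ℕ => ((z.1, z.1), (z.2, z.2)))) ∪
      (((Icc 1 H).biUnion (fun d => ((PD x H d) ×ˢ (PD y H d)).image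
        (fun z : ℕ × ℕ => ((z.1 + d, z.1), (z.2, z.2 + d))))) ∪
      ((Icc 1 H).biUnion (fun d => ((PD x H d) ×ˢ (PD y H d)).image
        (fun z : ℕ × ℕ => ((z.1, z.1 + d), (z.2 + d, z.2)))))) := by
    rintro ⟨⟨a1, a2⟩, b1, b2⟩ hz
    simp only [mem_filter, mem_product, PI, mem_Ioc] at hz
    obtain ⟨⟨⟨⟨ha1, ha1p⟩, ha2, ha2p⟩, ⟨hb1, hb1p⟩, hb2, hb2p⟩, he⟩ := hz
    rcases lt_trichotomy a1 a2 with h | h | h
    · apply mem_union_right
      apply mem_union_right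
      rw [mem_biUnion]
      refine ⟨a2 - a1, mem_Icc.2 ⟨by omega, by omega⟩, mem_image.2 ⟨(a1, b2), ?_, ?_⟩⟩
      · have e1 : a1 + (a2 - a1) = a2 := by omega
        have e2 : b2 + (a2 - a1) = b1 := by omega
        simp only [mem_product, PD, mem_filter, mem_Ioc, e1, e2]
        exact ⟨⟨ha1, ha1p, ha2p⟩, hb2, hb2p, hb1p⟩
      · have e1 : a1 + (a2 - a1) = a2 := by omega
        have e2 : b2 + (a2 - a1) = b1 := by omega
        simp only [e1, e2]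
    · apply mem_union_left
      have e : b1 = b2 := by omega
      subst h; subst e
      rw [mem_image]
      refine ⟨(a1, b1), ?_, rfl⟩
      simp only [mem_product, PI, mem_filter, mem_Ioc]
      exact ⟨⟨ha1, ha1p⟩, hb1, hb1p⟩
    · apply mem_union_right
      apply mem_union_left
      rw [mem_biUnion]
      refine ⟨a1 - a2, mem_Icc.2 ⟨by omega, by omega⟩, mem_image.2 ⟨(a2, b1), ?_, ?_⟩⟩
      · have e1 : a2 + (a1 - a2) = a1 := by omega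
        have e2 : b1 + (a1 - a2) = b2 := by omega
        simp only [mem_product, PD, mem_filter, mem_Ioc, e1, e2]
        exact ⟨⟨ha2, ha2p, ha1p⟩, hb1, hb1p, hb2p⟩
      · have e1 : a2 + (a1 - a2) = a1 := by omega
        have e2 : b1 + (a1 - a2) = b2 := by omega
        simp only [e1, e2]
  have hU : ∀ f : ℕ → ℕ × ℕ → (ℕ × ℕ) × ℕ × ℕ, ((Icc 1 H).biUnion (fun d => ((PD x H d) ×ˢ (PD y H d)).image (f d))).card ≤
      ∑ d ∈ Icc 1 H, (PD x H d).card * (PD y H d).card := by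
    intro f
    refine card_biUnion_le.trans (sum_le_sum fun d _ => ?_)
    refine card_image_le.trans ?_
    rw [card_product]
  have h0 := card_le_card hsub
  have h1 := (card_union_le (((PI x H) ×ˢ (PI y H)).image (fun z : ℕ × ℕ => ((z.1, z.1), (z.2, z.2))))
      (((Icc 1 H).biUnion (fun d => ((PD x H d) ×ˢ (PD y H d)).image
        (fun z : ℕ × ℕ => ((z.1 + d, z.1), (z.2, z.2 + d))))) ∪
      ((Icc 1 H).biUnion (fun d => ((PD x H d) ×ˢ (PD y H d)).image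
        (fun z : ℕ × ℕ => ((z.1, z.1 + d), (z.2 + d, z.2)))))))
  have h2 := (card_union_le ((Icc 1 H).biUnion (fun d => ((PD x H d) ×ˢ (PD y H d)).image
        (fun z : ℕ × ℕ => ((z.1 + d, z.1), (z.2, z.2 + d)))))
      ((Icc 1 H).biUnion (fun d => ((PD x H d) ×ˢ (PD y H d)).image
        (fun z : ℕ × ℕ => ((z.1, z.1 + d), (z.2 + d, z.2))))))
  have h3 : (((PI x H) ×ˢ (PI y H)).image (fun z : ℕ × ℕ => ((z.1, z.1), (z.2, z.2)))).card ≤
      (PI x H).card * (PI y H).card := card_image_le.trans (le_of_eq (card_product _ _))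
  have h4 := hU (fun d z => ((z.1 + d, z.1), (z.2, z.2 + d)))
  have h5 := hU (fun d z => ((z.1, z.1 + d), (z.2 + d, z.2)))
  unfold addEnergy
  omega

/-- **many sums**: if both intervals of length `H` contain at least `c H / ℓ` primes, `ℓ ≤ 2 log H`, then there are
at least `c' H` sums -/
theorem many_sums {c : ℝ} (hc : 0 < c) : ∃ c' : ℝ, 0 < c' ∧ ∃ H0 : ℕ, ∀ H : ℕ, H0 ≤ H → ∀ x y : ℕ, ∀ ℓ : ℝ, 0 < ℓ →
    ℓ ≤ 4 * Real.log H → c * H / ℓ ≤ (PI x H).card → c * H / ℓ ≤ (PI y H).card →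
    c' * H ≤ ((PI x H) + (PI y H)).card := by
  obtain ⟨C, hC, u0, hps⟩ := pair_sieve
  obtain ⟨C4, hC4, hsg⟩ := sum_sg4
  obtain ⟨CE, hCE⟩ : ∃ CE : ℝ, CE = 1 + 2 * C ^ 2 * C4 := ⟨_, rfl⟩
  have hCE0 : 0 < CE := by rw [hCE]; positivity
  have hlog4 : ∀ᶠ u : ℝ in atTop, Real.log u ^ 4 ≤ u ∧ 1 < u := by
    have h2 := (isLittleO_log_rpow_atTop (by norm_num : (0 : ℝ) < 1 / 4)).bound (by norm_num : (0 : ℝ) < 1)
    filter_upwards [h2, eventually_gt_atTop 1] with u h2 h3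
    have hu0 : 0 < u := by linarith
    have hl0 : 0 < Real.log u := Real.log_pos h3
    rw [Real.norm_of_nonneg hl0.le, Real.norm_of_nonneg (by positivity), one_mul] at h2
    refine ⟨?_, h3⟩
    calc Real.log u ^ 4 ≤ (u ^ (1 / 4 : ℝ)) ^ 4 := pow_le_pow_left₀ hl0.le h2 4
      _ = u := by
        rw [← Real.rpow_natCast, ← Real.rpow_mul hu0.le]
        norm_num
  obtain ⟨u1, hu1⟩ := eventually_atTop.1 hlog4
  refine ⟨c ^ 4 / (256 * CE), by positivity, u0 + ⌈u1⌉₊ + 1, fun H hH x y ℓ hℓ hℓH hx hy => ?_⟩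
  have hHu1 : u1 ≤ (H : ℝ) := (Nat.le_ceil u1).trans (by exact_mod_cast (by omega : ⌈u1⌉₊ ≤ H))
  obtain ⟨hlog, hH1⟩ := hu1 H hHu1
  have hH0 : (0 : ℝ) < H := by linarith
  obtain ⟨lh, hlh⟩ : ∃ lh : ℝ, lh = Real.log H := ⟨_, rfl⟩
  have hlh0 : 0 < lh := by rw [hlh]; exact Real.log_pos hH1
  rw [← hlh] at hℓH hlog
  have hPD : ∀ z : ℕ, ∀ d ∈ Icc 1 H, ((PD z H d).card : ℝ) ≤ C * sg d ^ 2 * H / lh ^ 2 := by
    intro z d hd
    rw [mem_Icc] at hd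
    rw [hlh]
    exact hps d z H (by omega) (by omega)
  have hPI : ∀ z : ℕ, ((PI z H).card : ℝ) ≤ H := by
    intro z
    have : (PI z H).card ≤ H := by
      unfold PI
      refine (card_filter_le _ _).trans ?_
      rw [Nat.card_Ioc]
      omega
    exact_mod_cast this
  have hE : ((addEnergy (PI x H) (PI y H) : ℕ) : ℝ) ≤ CE * (H ^ 3 / lh ^ 4) := by
    have h1 : ((addEnergy (PI x H) (PI y H) : ℕ) : ℝ) ≤
        (PI x H).card * (PI y H).card + 2 * ∑ d ∈ Icc 1 H, ((PD x H d).card : ℝ) * (PD y H d).card := by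
      exact_mod_cast energy_le x y H
    have h2 : ((PI x H).card : ℝ) * (PI y H).card ≤ H ^ 3 / lh ^ 4 := by
      have e1 : ((PI x H).card : ℝ) * (PI y H).card ≤ H * H :=
        mul_le_mul (hPI x) (hPI y) (Nat.cast_nonneg _) hH0.le
      refine e1.trans ?_
      rw [le_div_iff₀ (by positivity)]
      calc (H : ℝ) * H * lh ^ 4 ≤ H * H * H := mul_le_mul_of_nonneg_left hlog (by positivity)
        _ = H ^ 3 := by ring
    have h3 : ∑ d ∈ Icc 1 H, ((PD x H d).card : ℝ) * (PD y H d).card ≤ C ^ 2 * C4 * (H ^ 3 / lh ^ 4) := by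
      calc ∑ d ∈ Icc 1 H, ((PD x H d).card : ℝ) * (PD y H d).card
          ≤ ∑ d ∈ Icc 1 H, (C * sg d ^ 2 * H / lh ^ 2) * (C * sg d ^ 2 * H / lh ^ 2) := by
            apply sum_le_sum
            intro d hd
            exact mul_le_mul (hPD x d hd) (hPD y d hd) (Nat.cast_nonneg _) ((Nat.cast_nonneg _).trans (hPD x d hd))
        _ = C ^ 2 * (H ^ 2 / lh ^ 4) * ∑ d ∈ Icc 1 H, sg d ^ 4 := by
            rw [mul_sum]
            apply sum_congr rfl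
            intro d _
            ring
        _ ≤ C ^ 2 * (H ^ 2 / lh ^ 4) * (C4 * H) := mul_le_mul_of_nonneg_left (hsg H) (by positivity)
        _ = _ := by ring
    rw [hCE]
    have h4 : (1 + 2 * C ^ 2 * C4) * ((H : ℝ) ^ 3 / lh ^ 4) = H ^ 3 / lh ^ 4 + 2 * (C ^ 2 * C4 * (H ^ 3 / lh ^ 4)) := by ring
    rw [h4]
    linarith
  have hCS : ((PI x H).card : ℝ) ^ 2 * ((PI y H).card : ℝ) ^ 2 ≤
      (((PI x H) + (PI y H)).card : ℝ) * ((addEnergy (PI x H) (PI y H) : ℕ) : ℝ) := by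
    exact_mod_cast le_card_add_mul_addEnergy (PI x H) (PI y H)
  have hc0 : 0 ≤ c * H / ℓ := by positivity
  have h1 : (c * H / ℓ) ^ 2 * (c * H / ℓ) ^ 2 ≤
      (((PI x H) + (PI y H)).card : ℝ) * (CE * (H ^ 3 / lh ^ 4)) := by
    refine le_trans ?_ (hCS.trans (mul_le_mul_of_nonneg_left hE (Nat.cast_nonneg _)))
    exact mul_le_mul (pow_le_pow_left₀ hc0 hx 2) (pow_le_pow_left₀ hc0 hy 2) (by positivity) (by positivity)
  have h2 : (c * H / (4 * lh)) ≤ c * H / ℓ := div_le_div_of_nonneg_left (by positivity) hℓ hℓH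
  have h3 : (c * H / (4 * lh)) ^ 2 * (c * H / (4 * lh)) ^ 2 ≤ (c * H / ℓ) ^ 2 * (c * H / ℓ) ^ 2 :=
    mul_le_mul (pow_le_pow_left₀ (by positivity) h2 2) (pow_le_pow_left₀ (by positivity) h2 2) (by positivity) (by positivity)
  have h4 := h3.trans h1
  have h5 : (c * H / (4 * lh)) ^ 2 * (c * H / (4 * lh)) ^ 2 = (c ^ 4 / (256 * CE) * H) * (CE * (H ^ 3 / lh ^ 4)) := by
    field_simp
    ring
  rw [h5] at h4
  exact le_of_mul_le_mul_right h4 (by positivity)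

end Pool.Agent.Helper85.LQ
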