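import Pool.Agent.Helper85.LQ.Exc
import Pool.Agent.Helper85.LQ.Sum

set_option autoImplicit false

/-!
# Sums of two primes near `2 N ^ 2 + 2 N + 2`
-/

namespace Pool.Agent.Helper85.LQ

open Finset Filter Pool.Agent.Q240.KS
open Pool.Agent.H89B (primesIn Rich primesIn_eq)
open scoped Pointwise

/-- the differences `i - j` -/
def DF (N k H : ℕ) : Finset ℤ :=
  (((Ico k (k + H)) ×ˢ (Ico k (k + H))).filter
    (fun x => (N ^ 2 + x.1 + 1).Prime ∧ ((N + 1) ^ 2 - x.2).Prime)).image (fun x => (x.1 : ℤ) - x.2)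

lemma primesIn_nat (x H : ℕ) : primesIn (x : ℝ) ((x : ℝ) + H) = (PI x H).card := by
  rw [primesIn_eq (Nat.cast_nonneg x) (Nat.cast_nonneg H)]
  unfold pic PI
  rw [Nat.floor_natCast, ← Nat.cast_add, Nat.floor_natCast]

lemma card_DF {N k H : ℕ} (hkH : k + H ≤ 2 * N + 1) :
    (PI (N ^ 2 + k) H + PI ((N + 1) ^ 2 - k - H) H).card ≤ (DF N k H).card := by
  obtain ⟨M, hM⟩ : ∃ M : ℕ, M = N ^ 2 := ⟨_, rfl⟩
  have hM2 : (N + 1) ^ 2 = M + 2 * N + 1 := by rw [hM]; ring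
  apply card_le_card_of_injOn (fun s : ℕ => (s : ℤ) - (2 * M + 2 * N + 2))
  · intro s hs
    rw [mem_coe, Finset.mem_add] at hs
    obtain ⟨p, hp, q, hq, rfl⟩ := hs
    simp only [PI, mem_filter, mem_Ioc] at hp hq
    rw [← hM] at hp
    rw [hM2] at hq
    obtain ⟨⟨hp1, hp2⟩, hpp⟩ := hp
    obtain ⟨⟨hq1, hq2⟩, hqp⟩ := hq
    rw [mem_coe]
    unfold DF
    rw [mem_image]
    refine ⟨(p - M - 1, M + 2 * N + 1 - q), ?_, ?_⟩
    · rw [mem_filter, mem_product, mem_Ico, mem_Ico, ← hM, hM2]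
      have e1 : M + (p - M - 1) + 1 = p := by omega
      have e2 : M + 2 * N + 1 - (M + 2 * N + 1 - q) = q := by omega
      simp only [e1, e2]
      exact ⟨⟨⟨by omega, by omega⟩, by omega, by omega⟩, hpp, hqp⟩
    · have e1 : ((p - M - 1 : ℕ) : ℤ) = p - M - 1 := by omega
      have e2 : ((M + 2 * N + 1 - q : ℕ) : ℤ) = M + 2 * N + 1 - q := by omega
      simp only [e1, e2]
      push_cast
      ring
  · intro s _ t _ h
    simp only at h
    omega

open Classical in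
theorem main : ∃ c η C : ℝ, 0 < c ∧ 0 < η ∧ 0 < C ∧ ∀ X : ℕ, 1 ≤ X →
    (((Icc 1 X).filter (fun N : ℕ => ∃ k H : ℕ, k + H ≤ 2 * N + 1 ∧ (N : ℝ) ^ (1 - η) ≤ H ∧
      ((DF N k H).card : ℝ) < c * H)).card : ℝ) ≤ C * (X : ℝ) ^ (0.612 : ℝ) := by
  obtain ⟨c, η, C, hc, hη, hη1, hC, hX⟩ := exceptional
  obtain ⟨c', hc', H0, hM⟩ := many_sums hc
  have hlim : Tendsto (fun N : ℕ => ((N : ℝ)) ^ (1 - η)) atTop atTop :=
    (tendsto_rpow_atTop (by linarith)).comp tendsto_natCast_atTop_atTop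
  obtain ⟨N0, hN0⟩ := eventually_atTop.1 (hlim.eventually_ge_atTop (H0 : ℝ))
  refine ⟨c', η, (N0 + 3) + C, hc', hη, by positivity, fun X hX1 => ?_⟩
  have hXr : (1 : ℝ) ≤ X := by exact_mod_cast hX1
  have hpow : (1 : ℝ) ≤ (X : ℝ) ^ (0.612 : ℝ) := Real.one_le_rpow hXr (by norm_num)
  obtain ⟨S, hS⟩ : ∃ S : Finset ℕ, S = (Icc 1 X).filter (fun N : ℕ => ∃ k H : ℕ, k + H ≤ 2 * N + 1 ∧ (N : ℝ) ^ (1 - η) ≤ H ∧
      ((DF N k H).card : ℝ) < c' * H) := ⟨_, rfl⟩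
  rw [← hS]
  have h1 : ((S.filter (fun N => N < N0 + 3)).card : ℝ) ≤ N0 + 3 := by
    have : (S.filter (fun N => N < N0 + 3)) ⊆ range (N0 + 3) := by
      intro N hN
      rw [mem_filter] at hN
      exact mem_range.2 hN.2
    have h2 := card_le_card this
    rw [card_range] at h2
    exact_mod_cast h2
  have h2 : ((S.filter (fun N => ¬ N < N0 + 3)).card : ℝ) ≤ C * (X : ℝ) ^ (0.612 : ℝ) := by
    apply hX X hXr
    intro N hN
    rw [mem_filter, hS, mem_filter, mem_Icc] at hN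
    obtain ⟨⟨⟨hN1, hNX⟩, k, H, hkH, hHN, hbad⟩, hN3⟩ := hN
    refine ⟨by exact_mod_cast hNX, N + 1, ⟨hN1, rfl⟩, fun hR => ?_⟩
    have hN3' : N0 + 3 ≤ N := not_lt.1 hN3
    have hN0' := hN0 N (by omega)
    have hHH0 : H0 ≤ H := by exact_mod_cast hN0'.trans hHN
    have hNr : (1 : ℝ) < N := by exact_mod_cast (by omega : 1 < N)
    have hNpos : (0 : ℝ) < N := by linarith
    have hlogN : 0 < Real.log N := Real.log_pos hNr
    have hlogH : (1 - η) * Real.log N ≤ Real.log H := by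
      have := Real.log_le_log (Real.rpow_pos_of_pos hNpos _) hHN
      rwa [Real.log_rpow hNpos] at this
    have hell : Real.log N ≤ 4 * Real.log H := by nlinarith
    obtain ⟨M, hMd⟩ : ∃ M : ℕ, M = N ^ 2 := ⟨_, rfl⟩
    have hM2 : (N + 1) ^ 2 = M + 2 * N + 1 := by rw [hMd]; ring
    have hq2 : ((N + 1 : ℕ) : ℝ) ^ 2 = ((M + 2 * N + 1 : ℕ) : ℝ) := by rw [← hM2]; push_cast; ring
    have hp2 : (N : ℝ) ^ 2 = (M : ℝ) := by rw [hMd]; push_cast; ring
    have hA : c * H / Real.log N ≤ (PI (N ^ 2 + k) H).card := by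
      rw [← primesIn_nat, ← hMd]
      apply hR _ _ hHN
      · rw [hp2]; exact_mod_cast (by omega : M ≤ M + k)
      · rw [hq2]; exact_mod_cast (by omega : M + k + H ≤ M + 2 * N + 1)
    have hB : c * H / Real.log N ≤ (PI ((N + 1) ^ 2 - k - H) H).card := by
      rw [← primesIn_nat, hM2]
      apply hR _ _ hHN
      · rw [hp2]; exact_mod_cast (by omega : M ≤ M + 2 * N + 1 - k - H)
      · rw [hq2]; exact_mod_cast (by omega : M + 2 * N + 1 - k - H + H ≤ M + 2 * N + 1)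
    have h3 := hM H hHH0 _ _ _ hlogN hell hA hB
    have h4 : (((PI (N ^ 2 + k) H + PI ((N + 1) ^ 2 - k - H) H).card : ℕ) : ℝ) ≤ ((DF N k H).card : ℝ) := by
      exact_mod_cast card_DF hkH
    linarith
  have h3 := card_filter_add_card_filter_not (s := S) (fun N => N < N0 + 3)
  have h4 : (S.card : ℝ) = ((S.filter (fun N => N < N0 + 3)).card : ℝ) + ((S.filter (fun N => ¬ N < N0 + 3)).card : ℝ) := by
    exact_mod_cast h3.symm
  rw [h4]
  have h5 : ((N0 : ℝ) + 3) * 1 ≤ (N0 + 3) * (X : ℝ) ^ (0.612 : ℝ) := mul_le_mul_of_nonneg_left hpow (by positivity)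
  linarith

end Pool.Agent.Helper85.LQ
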